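import Pool.Agent.H60.LQ.Cfg
import Pool.Agent.H45.KTH.KPS

/-!
# LQ, row KPS2: the ratios are neither large nor small (no hypothesis on the entropies)
-/

set_option autoImplicit false

namespace Pool.LQ

open Finset Real
open Pool.Agent.H49.Ent Pool.Agent.H32.Dense Pool.KTH

theorem kps2 : KPS2Stmt := by
  intro d
  refine ⟨4 * Real.log 9 + 4, by
    have : 0 ≤ Real.log 9 := Real.log_nonneg (by norm_num)
    linarith, fun J F => ?_⟩
  have hlog : 0 ≤ Real.log ((J : ℝ) + 2) := Real.log_nonneg (by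
    have : (0 : ℝ) ≤ J := Nat.cast_nonneg J
    linarith)
  have hn : ∀ x y : F.Ω → ℤ, 0 ≤ F.eg x y := fun x y =>
    Ex_nonneg F.hq fun w _ => kps_gp_nonneg J _ _
  have n1 := hn F.t F.s
  have n2 := hn F.t₁ F.t
  have n3 := hn F.t₁ F.s
  have n4 := hn F.r F.t
  have n5 := hn F.r F.s
  have n6 := hn F.r F.t₁
  have n7 := hn F.tr F.s
  have n8 := hn F.ta F.s
  have n9 := hn F.ta F.tr
  have n10 := hn F.ta F.TO
  have key : ∀ (f : F.Ω → ℝ) (x y : F.Ω → ℤ),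
      (∀ w, 0 < F.q w → f w ≤ Real.log 9 + gp J (x w) (y w)) →
      Ex F.q f ≤ Real.log 9 + F.eg x y := by
    intro f x y hf
    refine (Ex_mono F.hq hf).trans (le_of_eq ?_)
    rw [Ex_add, Ex_const F.h1]
    rfl
  have k1 : Ex F.q (fun w => Real.log (1 + |F.k₁ w|)) ≤ Real.log 9 + F.eg F.t₁ F.t :=
    key _ _ _ fun w hw => kps_log J _ _ _ (F.ht₁ w hw) (F.hs w hw)
  have k2 : Ex F.q (fun w => Real.log (1 + |F.k₁ w|⁻¹)) ≤ Real.log 9 + F.eg F.t₁ F.s :=
    key _ _ _ fun w hw => by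
      have e1 : |F.k₁ w|⁻¹ = |kap (F.s w) (F.t w) (F.t₁ w)| := by
        rw [kap_swap (F.t w) (F.s w) (F.t₁ w), abs_inv]
        rfl
      rw [e1]
      exact kps_log J _ _ _ (F.ht₁ w hw) (F.ht w hw)
  have k3 : Ex F.q (fun w => Real.log (1 + |F.k₂ w|)) ≤ Real.log 9 + F.eg F.ta F.s :=
    key _ _ _ fun w hw => kps_log J _ _ _ (F.hta w hw) (F.htr w hw)
  have k4 : Ex F.q (fun w => Real.log (1 + |F.k₂ w|⁻¹)) ≤ Real.log 9 + F.eg F.ta F.tr :=
    key _ _ _ fun w hw => by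
      have e1 : |F.k₂ w|⁻¹ = |kap (F.tr w) (F.s w) (F.ta w)| := by
        rw [kap_swap (F.s w) (F.tr w) (F.ta w), abs_inv]
        rfl
      rw [e1]
      exact kps_log J _ _ _ (F.hta w hw) (F.hs w hw)
  have hl : 0 ≤ Real.log 9 := Real.log_nonneg (by norm_num)
  have hen : F.eg F.t₁ F.t + F.eg F.t₁ F.s + F.eg F.ta F.s + F.eg F.ta F.tr ≤ en F := by
    unfold en
    linarith
  have hen0 : 0 ≤ en F := by
    unfold en
    linarith
  have h1 : (4 * Real.log 9 + 4) * (en F + 1 + Real.log ((J : ℝ) + 2)) =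
      4 * Real.log 9 + 4 * en F + (4 + 4 * Real.log 9 * (en F + Real.log ((J : ℝ) + 2)) +
        4 * Real.log ((J : ℝ) + 2)) := by ring
  have h2 : 0 ≤ 4 * Real.log 9 * (en F + Real.log ((J : ℝ) + 2)) := by positivity
  rw [h1]
  linarith

end Pool.LQ
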